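import Pool.Agent.H41.Wnc2

set_option autoImplicit false

open Set Bornology Pool.Agent.H41.Wnc
open scoped ENNReal NNReal

theorem Pool.Agent.Results.MP_ca490d_an.NotEquiv.result :
    ∀ c : ℝ≥0, ∃ A : Set C(unitInterval, ℂ), IsBounded A ∧ c * wk A < om A := by
  have k : ∀ n : ℕ, ∃ A : Set C(unitInterval, ℂ), IsBounded A ∧ wk A ≤ 1 ∧ n ≤ om A := fun n => by
    have := gen (X := C(unitInterval, ℂ)) (fun t => ContinuousMap.evalCLM ℂ t)
      (fun t => ContinuousLinearMap.opNorm_le_bound _ zero_le_one fun x => by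
        simpa using x.norm_coe_le_norm t)
      (fun x c h0 h => (x.norm_le h0).2 h) (2 * n) (2 * n)
      (fun p q => ⟨fun t => (max 0 (min 1 (∑ b ∈ Finset.Ioc p q, fz (2 * n) b t)) : ℝ), by
        have := fz_cont (2 * n)
        fun_prop⟩)
      (fun p q t => by simp [abs_le, show (-1 : ℝ) ≤ 0 by norm_num]) (fun t => ?_) fun B hB => ?_
    · simpa using this
    · obtain ⟨s, h1, h2⟩ := fz_card (2 * n) t
      refine ⟨s, h1, fun p q h => ?_⟩
      simp [Finset.sum_eq_zero fun b (hb : b ∈ Finset.Ioc p q) =>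
        h2 b fun e => h b e (by simpa using hb)]
    · obtain ⟨x, h1, h2⟩ := fz_real _ B hB
      refine ⟨⟨x, h1⟩, fun p q => ?_⟩
      simp only [ContinuousMap.evalCLM_apply, ContinuousMap.coe_mk, h2]
      split_ifs with h
      · obtain ⟨b, h3, h4⟩ := h
        rw [min_eq_left ((if_pos h3).symm.trans_le (Finset.single_le_sum
          (f := fun b => if b ∈ B then (1 : ℝ) else 0) (fun _ _ => by positivity) h4))]
        simp
      · simp [Finset.sum_eq_zero fun b (hb : b ∈ Finset.Ioc p q) =>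
          (if_neg fun e => h ⟨b, e, hb⟩ : (if b ∈ B then (1 : ℝ) else 0) = 0)]
  intro c
  obtain ⟨n, hn⟩ := exists_nat_gt c
  obtain ⟨A, h1, h2, h3⟩ := k n
  exact ⟨A, h1, ((mul_le_of_le_one_right' h2).trans_lt (by exact_mod_cast hn)).trans_le h3⟩
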